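import Pool.Agent.Helper60.KT.Selberg

/-! # Selberg's lemma for affine groups -/

set_option autoImplicit false

namespace Pool.Agent.KT3

theorem fg_map {G H : Type*} [Group G] [Group H] (S : Subgroup G) (h : S.FG) (f : G →* H) :
    (S.map f).FG := by
  classical
  obtain ⟨F, hF⟩ := h
  refine ⟨F.image f, ?_⟩
  rw [Finset.coe_image, ← MonoidHom.map_closure, hF]

/-- **Selberg's lemma** for finitely generated groups of affine transformations. -/
theorem selberg_aff {V : Type*} [NormedAddCommGroup V] [NormedSpace ℝ V] [FiniteDimensional ℝ V]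
    (Γ : Subgroup (V ≃ᵃ[ℝ] V)) (hfg : Γ.FG) :
    ∃ N : Subgroup (V ≃ᵃ[ℝ] V), N ≤ Γ ∧ (N.subgroupOf Γ).FiniteIndex ∧
      ∀ γ ∈ N, ∀ k : ℕ, 0 < k → γ ^ k = 1 → γ = 1 := by
  classical
  set n := Module.finrank ℝ V
  set b : Module.Basis (Fin n) ℝ V := Module.finBasis ℝ V
  set e : (V →ₗ[ℝ] V) ≃* Matrix (Fin n) (Fin n) ℝ := (LinearMap.toMatrixAlgEquiv b).toMulEquiv
  set f : (V ≃ᵃ[ℝ] V) →* Matrix.GeneralLinearGroup (Fin n) ℝ :=
    ((Units.mapEquiv e).toMonoidHom.comp
      (LinearMap.GeneralLinearGroup.generalLinearEquiv ℝ V).symm.toMonoidHom).comp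
      AffineEquiv.linearHom with hf
  have hfker : ∀ γ : V ≃ᵃ[ℝ] V, f γ = 1 → γ.linear = 1 := by
    intro γ h1
    have h2 : (Units.mapEquiv e) ((LinearMap.GeneralLinearGroup.generalLinearEquiv ℝ V).symm
      (AffineEquiv.linearHom γ)) = 1 := h1
    rw [MulEquiv.map_eq_one_iff, MulEquiv.map_eq_one_iff] at h2
    exact h2
  obtain ⟨T, hT, hi, ho⟩ := selberg (Γ.map f) (fg_map Γ hfg f)
  refine ⟨Γ ⊓ T.comap f, inf_le_left, ⟨?_⟩, ?_⟩
  · show (Γ ⊓ T.comap f).relIndex Γ ≠ 0
    rw [Subgroup.inf_relIndex_left, Subgroup.relIndex_comap]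
    exact hi
  · rintro γ ⟨-, hγ⟩ k hk hpow
    have h1 : f γ = 1 := by
      refine ho (f γ) hγ ?_
      rw [isOfFinOrder_iff_pow_eq_one]
      exact ⟨k, hk, by rw [← map_pow, hpow, map_one]⟩
    have h2 := hfker γ h1
    -- `γ` is a translation
    have h3 : ∀ x : V, γ x = x + γ 0 := by
      intro x
      have := γ.map_vadd 0 x
      rw [h2] at this
      simpa using this
    have h4 : ∀ (j : ℕ) (x : V), (γ ^ j) x = x + (j : ℝ) • γ 0 := by
      intro j
      induction j with
      | zero => intro x; simp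
      | succ j ih =>
        intro x
        rw [pow_succ, AffineEquiv.coe_mul, Function.comp_apply, ih, h3 x]
        push_cast
        rw [add_smul, one_smul]
        abel
    have h5 : (k : ℝ) • γ 0 = 0 := by
      have := h4 k 0
      rw [hpow] at this
      simpa using this.symm
    have h6 : γ 0 = 0 := by
      rcases smul_eq_zero.1 h5 with h | h
      · exact absurd h (by exact_mod_cast hk.ne')
      · exact h
    ext x
    rw [h3 x, h6, add_zero]
    rfl

end Pool.Agent.KT3
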