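import Mathlib

/-! # Selberg's lemma

A finitely generated subgroup of `GL (Fin n) ℝ` has a torsion-free subgroup of finite index.
(Row KT3 of the team project MP_df2bd8, Theorem KT.) -/

set_option autoImplicit false

namespace Pool.Agent.KT3
open Matrix

/-- `ℤ` is a Jacobson ring -/
theorem jac_int : IsJacobsonRing ℤ := by
  rw [isJacobsonRing_iff_prime_eq]
  intro P hP
  by_cases h : P = ⊥
  · subst h
    refine le_antisymm ?_ Ideal.le_jacobson
    intro x hx
    have h1 := Ideal.mem_jacobson_bot.1 hx x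
    rw [Int.isUnit_iff] at h1
    have h2 : x = 0 := by
      rcases h1 with h1 | h1 <;> nlinarith [mul_self_nonneg x]
    rw [h2]
    exact Ideal.zero_mem _
  · have := hP.isMaximal h
    exact Ideal.jacobson_eq_self_of_isMaximal

/-- a field which is finitely generated as a ring is finite -/
theorem finite_of_fg (K : Type*) [Field K] [i : Algebra ℤ K] [Algebra.FiniteType ℤ K] :
    Finite K := by
  have := jac_int
  have e : i = Ring.toIntAlgebra K := Subsingleton.elim _ _
  subst e
  have h1 : Module.Finite ℤ K := finite_of_finite_type_of_isJacobsonRing ℤ K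
  obtain ⟨p, hp⟩ := CharP.exists K
  rcases Nat.eq_zero_or_pos p with rfl | hpos
  · exfalso
    have : CharZero K := CharP.charP_to_charZero K
    have hint : Algebra.IsIntegral ℤ K := Algebra.IsIntegral.of_finite ℤ K
    have hinj : Function.Injective (algebraMap ℤ K) := (algebraMap ℤ K).injective_int
    exact Int.not_isField (isField_of_isIntegral_of_isField hinj (Field.toIsField K))
  · have : NeZero p := ⟨hpos.ne'⟩
    let _ : Algebra (ZMod p) K := ZMod.algebra K p
    have h2 : Module.Finite (ZMod p) K := by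
      have : IsScalarTower ℤ (ZMod p) K := IsScalarTower.of_algebraMap_eq' (RingHom.ext_int _ _)
      exact Module.Finite.of_restrictScalars_finite ℤ (ZMod p) K
    exact Module.finite_of_finite (ZMod p)

/-- `(1 + X) ^ q = 1 + q X + X ^ 2 Y` -/
theorem one_add_pow {A : Type*} [CommRing A] {n : ℕ} (X : Matrix (Fin n) (Fin n) A) (q : ℕ) :
    ∃ Y : Matrix (Fin n) (Fin n) A, (1 + X) ^ q = 1 + (q : A) • X + X * X * Y := by
  induction q with
  | zero => exact ⟨0, by simp⟩
  | succ q ih =>
    obtain ⟨Y, hY⟩ := ih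
    refine ⟨Y + (q : A) • 1 + Y * X, ?_⟩
    rw [pow_succ, hY]
    have e1 : (((q + 1 : ℕ) : A)) • X = (q : A) • X + X := by
      push_cast
      rw [add_smul, one_smul]
    rw [e1]
    simp only [mul_add, add_mul, one_mul, mul_one, smul_mul_assoc, mul_smul_comm, mul_assoc]
    abel

/-- an element of finite order prime to the residue characteristic in the congruence subgroup
is trivial -/
theorem pow_trivial {A : Type*} [CommRing A] [IsDomain A] [IsNoetherianRing A] (m : Ideal A)
    [hm : m.IsMaximal] {n : ℕ} (q : ℕ) (hq : (q : A) ∉ m) (g : Matrix (Fin n) (Fin n) A)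
    (hg : ∀ i j, (g - 1) i j ∈ m) (hpow : g ^ q = 1) : g = 1 := by
  set X := g - 1 with hX
  obtain ⟨Y, hY⟩ := one_add_pow X q
  have hg1 : 1 + X = g := by rw [hX]; abel
  rw [hg1, hpow] at hY
  have hqX : (q : A) • X = -(X * X * Y) := by
    have : (1 : Matrix (Fin n) (Fin n) A) + ((q : A) • X + X * X * Y) = 1 + 0 := by
      rw [← add_assoc, ← hY, add_zero]
    have h2 := add_left_cancel this
    exact eq_neg_of_add_eq_zero_left h2
  -- `q` is a unit modulo every power of `m`
  have hunit : ∀ (k : ℕ) (x : A), (q : A) * x ∈ m ^ k → x ∈ m ^ k := by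
    intro k x hx
    obtain ⟨y, i, hi, hyi⟩ := hm.exists_inv hq
    have hd : y * (q : A) ∣ 1 - i ^ k := by
      have h1 := sub_dvd_pow_sub_pow (y * (q : A) + i) i k
      rwa [add_sub_cancel_right, hyi, one_pow] at h1
    obtain ⟨c, hc⟩ := hd
    have h3 : x = (y * c) * ((q : A) * x) + i ^ k * x := by
      linear_combination x * hc
    rw [h3]
    exact Ideal.add_mem _ (Ideal.mul_mem_left _ _ hx)
      (Ideal.mul_mem_right _ _ (Ideal.pow_mem_pow hi k))
  have key : ∀ k : ℕ, ∀ i j, X i j ∈ m ^ (k + 1) := by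
    intro k
    induction k with
    | zero => intro i j; rw [zero_add, pow_one]; exact hg i j
    | succ k ih =>
      intro i j
      apply hunit
      have h1 : (q : A) * X i j = -((X * X * Y) i j) := by
        have := congrFun (congrFun hqX i) j
        simpa using this
      rw [h1]
      refine Ideal.neg_mem_iff _ |>.2 ?_
      rw [Matrix.mul_apply]
      refine Ideal.sum_mem _ fun l _ => Ideal.mul_mem_right _ _ ?_
      rw [Matrix.mul_apply]
      refine Ideal.sum_mem _ fun l' _ => ?_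
      have h2 : X i l' * X l' l ∈ m ^ (k + 1) * m ^ (k + 1) := Ideal.mul_mem_mul (ih i l') (ih l' l)
      rw [← pow_add] at h2
      exact Ideal.pow_le_pow_right (by omega) h2
  have hzero : X = 0 := by
    ext i j
    have h1 : X i j ∈ ⨅ k : ℕ, m ^ k := by
      rw [Ideal.mem_iInf]
      intro k
      exact Ideal.pow_le_pow_right (by omega) (key k i j)
    rw [Ideal.iInf_pow_eq_bot_of_isDomain m hm.ne_top] at h1
    simpa using h1
  rw [← hg1, hzero, add_zero]

/-- one congruence subgroup -/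
theorem selberg_one {K : Type*} [Field K] [CharZero K] {n : ℕ}
    (S : Subgroup (GL (Fin n) K)) (h : S.FG) (N : ℕ) (hN : N ≠ 0) :
    ∃ p : ℕ, p.Prime ∧ ¬ p ∣ N ∧ ∃ T ≤ S, T.relIndex S ≠ 0 ∧
      ∀ g ∈ T, ∀ q : ℕ, q.Prime → orderOf g = q → q = p := by
  classical
  obtain ⟨F, hF⟩ := h
  set E : Set K := (⋃ g ∈ F, (Set.range fun ij : Fin n × Fin n => (g : Matrix (Fin n) (Fin n) K) ij.1 ij.2) ∪
    (Set.range fun ij : Fin n × Fin n => ((g⁻¹ : GL (Fin n) K) : Matrix (Fin n) (Fin n) K) ij.1 ij.2)) ∪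
    {(N : K)⁻¹} with hE
  have hEfin : E.Finite := by
    refine Set.Finite.union ?_ (Set.finite_singleton _)
    refine Set.Finite.biUnion F.finite_toSet fun g _ => ?_
    exact (Set.finite_range _).union (Set.finite_range _)
  set A : Subalgebra ℤ K := Algebra.adjoin ℤ E with hA
  have hft : Algebra.FiniteType ℤ A := by
    rw [← Subalgebra.fg_iff_finiteType]
    exact Subalgebra.fg_def.2 ⟨E, hEfin, rfl⟩
  have hnoeth : IsNoetherianRing A := Algebra.FiniteType.isNoetherianRing ℤ A
  obtain ⟨m, hm⟩ := Ideal.exists_maximal A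
  let hfld : Field (A ⧸ m) := Ideal.Quotient.field m
  have hfin : Finite (A ⧸ m) := finite_of_fg (A ⧸ m)
  obtain ⟨p, hp⟩ := CharP.exists (A ⧸ m)
  have hp0 : p ≠ 0 := by
    rintro rfl
    have : CharZero (A ⧸ m) := CharP.charP_to_charZero _
    exact not_finite (A ⧸ m)
  have hpp : p.Prime := (CharP.char_is_prime_or_zero (A ⧸ m) p).resolve_right hp0
  -- `N` is a unit
  have hNA : (N : A) ∉ m := by
    intro hmem
    have hinvmem : (N : K)⁻¹ ∈ A := Algebra.subset_adjoin (Or.inr rfl)
    have h1 : (⟨(N : K)⁻¹, hinvmem⟩ : A) * (N : A) = 1 := by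
      apply Subtype.ext
      have : (N : K) ≠ 0 := by exact_mod_cast hN
      simpa using inv_mul_cancel₀ this
    exact hm.ne_top ((Ideal.eq_top_iff_one m).2 (h1 ▸ Ideal.mul_mem_left m _ hmem))
  refine ⟨p, hpp, ?_, ?_⟩
  · rintro ⟨c, hc⟩
    apply hNA
    rw [← Ideal.Quotient.eq_zero_iff_mem, map_natCast, hc]
    push_cast
    rw [CharP.cast_eq_zero, zero_mul]
  set φ : GL (Fin n) A →* GL (Fin n) K := Matrix.GeneralLinearGroup.map (A.val : A →+* K) with hφ
  set ψ : GL (Fin n) A →* GL (Fin n) (A ⧸ m) :=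
    Matrix.GeneralLinearGroup.map (Ideal.Quotient.mk m) with hψ
  have hφinj : Function.Injective φ := by
    intro g g' hgg
    apply Units.ext
    ext i j
    have := congrArg (fun u : GL (Fin n) K => (u : Matrix (Fin n) (Fin n) K) i j) hgg
    simpa [hφ] using this
  -- `S` is contained in the image of `φ`
  have hSle : S ≤ (⊤ : Subgroup (GL (Fin n) A)).map φ := by
    rw [← hF, Subgroup.closure_le]
    intro g hg
    have hmem : ∀ i j, (g : Matrix (Fin n) (Fin n) K) i j ∈ A := fun i j =>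
      Algebra.subset_adjoin (Or.inl (Set.mem_biUnion hg (Or.inl ⟨(i, j), rfl⟩)))
    have hmem' : ∀ i j, ((g⁻¹ : GL (Fin n) K) : Matrix (Fin n) (Fin n) K) i j ∈ A := fun i j =>
      Algebra.subset_adjoin (Or.inl (Set.mem_biUnion hg (Or.inr ⟨(i, j), rfl⟩)))
    set B : Matrix (Fin n) (Fin n) A := Matrix.of fun i j => ⟨_, hmem i j⟩ with hB
    set C : Matrix (Fin n) (Fin n) A := Matrix.of fun i j => ⟨_, hmem' i j⟩ with hC
    have hBm : B.map (A.val : A →+* K) = (g : Matrix (Fin n) (Fin n) K) := by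
      ext i j; rfl
    have hCm : C.map (A.val : A →+* K) = ((g⁻¹ : GL (Fin n) K) : Matrix (Fin n) (Fin n) K) := by
      ext i j; rfl
    have hinj : Function.Injective (fun M : Matrix (Fin n) (Fin n) A => M.map (A.val : A →+* K)) := by
      intro M M' hMM
      ext i j
      have := congrFun (congrFun hMM i) j
      simpa using this
    have hBC : B * C = 1 := by
      apply hinj
      show (B * C).map (A.val : A →+* K) = (1 : Matrix (Fin n) (Fin n) A).map (A.val : A →+* K)
      rw [Matrix.map_mul, hBm, hCm, Matrix.map_one _ (map_zero _) (map_one _)]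
      exact g.mul_inv
    have hCB : C * B = 1 := by
      apply hinj
      show (C * B).map (A.val : A →+* K) = (1 : Matrix (Fin n) (Fin n) A).map (A.val : A →+* K)
      rw [Matrix.map_mul, hBm, hCm, Matrix.map_one _ (map_zero _) (map_one _)]
      exact g.inv_mul
    refine ⟨⟨B, C, hBC, hCB⟩, Subgroup.mem_top _, ?_⟩
    apply Units.ext
    exact hBm
  refine ⟨S ⊓ ψ.ker.map φ, inf_le_left, ?_, ?_⟩
  · rw [Subgroup.inf_relIndex_left]
    intro h0
    have h1 := Subgroup.relIndex_eq_zero_of_le_right hSle h0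
    rw [Subgroup.relIndex_map_map_of_injective _ _ hφinj, Subgroup.relIndex_top_right] at h1
    have : Finite (GL (Fin n) (A ⧸ m)) := inferInstance
    have h2 : ψ.ker.index = Nat.card ψ.range := Subgroup.index_ker ψ
    rw [h2] at h1
    exact Nat.card_pos.ne' h1
  · rintro _ ⟨_, g, hgker, rfl⟩ q hq hord
    by_contra hne
    have hqm : (q : A) ∉ m := by
      intro hmem
      rw [← Ideal.Quotient.eq_zero_iff_mem, map_natCast, CharP.cast_eq_zero_iff (A ⧸ m) p] at hmem
      exact hne ((Nat.prime_dvd_prime_iff_eq hpp hq).1 hmem).symm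
    have hpow : g ^ q = 1 := by
      apply hφinj
      rw [map_pow, map_one, ← hord]
      exact pow_orderOf_eq_one _
    have hgm : ∀ i j, ((g : Matrix (Fin n) (Fin n) A) - 1) i j ∈ m := by
      intro i j
      rw [← Ideal.Quotient.eq_zero_iff_mem]
      have h1 : ψ g = 1 := hgker
      have h2 : (ψ g).val i j = (1 : Matrix (Fin n) (Fin n) (A ⧸ m)) i j := by rw [h1]; rfl
      have h3 : Ideal.Quotient.mk m ((g : Matrix (Fin n) (Fin n) A) i j) =
          (1 : Matrix (Fin n) (Fin n) (A ⧸ m)) i j := h2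
      rw [Matrix.sub_apply, map_sub, h3, Matrix.one_apply, Matrix.one_apply]
      split_ifs <;> simp
    have hg1 : (g : Matrix (Fin n) (Fin n) A) = 1 := by
      refine pow_trivial m q hqm _ hgm ?_
      have := congrArg (fun u : GL (Fin n) A => (u : Matrix (Fin n) (Fin n) A)) hpow
      simpa using this
    have hg2 : g = 1 := Units.ext hg1
    rw [hg2, map_one, orderOf_one] at hord
    exact hq.one_lt.ne hord

/-- **Selberg's lemma.** -/
theorem selberg {n : ℕ} (S : Subgroup (GL (Fin n) ℝ)) (h : S.FG) :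
    ∃ T ≤ S, T.relIndex S ≠ 0 ∧ ∀ g ∈ T, IsOfFinOrder g → g = 1 := by
  obtain ⟨p₁, hp₁, -, T₁, hT₁, hi₁, ho₁⟩ := selberg_one S h 1 one_ne_zero
  obtain ⟨p₂, hp₂, hd, T₂, hT₂, hi₂, ho₂⟩ := selberg_one S h p₁ hp₁.ne_zero
  refine ⟨T₁ ⊓ T₂, inf_le_left.trans hT₁, Subgroup.relIndex_inf_ne_zero hi₁ hi₂, ?_⟩
  rintro g ⟨hg₁, hg₂⟩ hfin
  by_contra hne
  have hd1 : orderOf g ≠ 1 := fun h1 => hne (orderOf_eq_one_iff.1 h1)
  obtain ⟨q, hq, hqd⟩ := Nat.exists_prime_and_dvd hd1
  have hord : orderOf (g ^ (orderOf g / q)) = q :=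
    orderOf_pow_orderOf_div (orderOf_pos_iff.2 hfin).ne' hqd
  have h1 := ho₁ _ (T₁.pow_mem hg₁ _) q hq hord
  have h2 := ho₂ _ (T₂.pow_mem hg₂ _) q hq hord
  exact hd ((h2.symm.trans h1) ▸ dvd_rfl)

end Pool.Agent.KT3
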